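import Mathlib

set_option autoImplicit false

namespace Pool.Agent.H81R3.BH60

/-- evaluation of a coefficient list at `z` -/
def evalL (z : ℂ) : List ℤ → ℂ
  | [] => 0
  | a :: l => (a : ℂ) + z * evalL z l

/-- multiplication by `x` modulo `Φ₆₀ = x¹⁶ + x¹⁴ - x¹⁰ - x⁸ - x⁶ + x² + 1` -/
def step : List ℤ → List ℤ
  | [c0, c1, c2, c3, c4, c5, c6, c7, c8, c9, c10, c11, c12, c13, c14, c15] =>
    [-c15, c0, c1 - c15, c2, c3, c4, c5 + c15, c6, c7 + c15, c8, c9 + c15, c10, c11, c12,
      c13 - c15, c14]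
  | l => l

def red : ℕ → List ℤ
  | 0 => [1, 0, 0, 0, 0, 0, 0, 0, 0, 0, 0, 0, 0, 0, 0, 0]
  | e + 1 => step (red e)

theorem step_length (l : List ℤ) (h : l.length = 16) : (step l).length = 16 := by
  match l, h with
  | [c0, c1, c2, c3, c4, c5, c6, c7, c8, c9, c10, c11, c12, c13, c14, c15], _ => rfl

theorem red_length (e : ℕ) : (red e).length = 16 := by
  induction e with
  | zero => rfl
  | succ e ih => exact step_length _ ih

theorem step_eval (z : ℂ)
    (hz : z ^ 16 + z ^ 14 - z ^ 10 - z ^ 8 - z ^ 6 + z ^ 2 + 1 = 0)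
    (l : List ℤ) (h : l.length = 16) : evalL z (step l) = z * evalL z l := by
  match l, h with
  | [c0, c1, c2, c3, c4, c5, c6, c7, c8, c9, c10, c11, c12, c13, c14, c15], _ =>
    simp only [step, evalL]
    push_cast
    linear_combination (-(c15 : ℂ)) * hz

theorem red_eval (z : ℂ)
    (hz : z ^ 16 + z ^ 14 - z ^ 10 - z ^ 8 - z ^ 6 + z ^ 2 + 1 = 0) (e : ℕ) :
    evalL z (red e) = z ^ e := by
  induction e with
  | zero => simp [red, evalL]
  | succ e ih => rw [red, step_eval z hz _ (red_length e), ih]; ring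

theorem add_eval (z : ℂ) : ∀ (a b : List ℤ), a.length = b.length →
    evalL z (List.zipWith (· + ·) a b) = evalL z a + evalL z b
  | [], [], _ => by simp [evalL]
  | a :: l, b :: m, h => by
    have := add_eval z l m (by simpa using h)
    simp only [List.zipWith_cons_cons, evalL, this]
    push_cast; ring

open Polynomial in
/-- the polynomial of a coefficient list -/
noncomputable def polyL : List ℤ → ℚ[X]
  | [] => 0
  | a :: l => C (a : ℚ) + X * polyL l

theorem polyL_aeval (z : ℂ) : ∀ l : List ℤ, Polynomial.aeval z (polyL l) = evalL z l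
  | [] => by simp [polyL, evalL]
  | a :: l => by simp [polyL, evalL, polyL_aeval z l]

theorem polyL_coeff : ∀ (l : List ℤ) (i : ℕ), (polyL l).coeff i = (l.getD i 0 : ℤ)
  | [], i => by simp [polyL]
  | a :: l, 0 => by simp [polyL]
  | a :: l, i + 1 => by
    simp only [polyL, Polynomial.coeff_add, Polynomial.coeff_C_succ, zero_add, Polynomial.coeff_X_mul]
    rw [polyL_coeff l i]; simp

theorem eq_zero_of_eval (z : ℂ) (hz : IsPrimitiveRoot z 60) (l : List ℤ) (hl : l.length = 16)
    (h : evalL z l = 0) : l = List.replicate 16 0 := by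
  have hp : polyL l = 0 := by
    by_contra hne
    have h1 := minpoly.degree_le_of_ne_zero ℚ z hne (by rw [polyL_aeval, h])
    have h2 : minpoly ℚ z = Polynomial.cyclotomic 60 ℚ :=
      (Polynomial.cyclotomic_eq_minpoly_rat hz (by norm_num)).symm
    rw [h2, Polynomial.degree_cyclotomic] at h1
    have h3 : (polyL l).degree < (16 : ℕ) := by
      rw [Polynomial.degree_lt_iff_coeff_zero]
      intro m hm
      rw [polyL_coeff, List.getD_eq_default _ _ (by omega)]
      simp
    have h4 : Nat.totient 60 = 16 := by decide +kernel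
    rw [h4] at h1
    exact absurd (lt_of_le_of_lt h1 h3) (lt_irrefl _)
  rw [List.eq_replicate_iff]
  refine ⟨hl, fun b hb => ?_⟩
  obtain ⟨i, h1, rfl⟩ := List.getElem_of_mem hb
  have := polyL_coeff l i
  rw [hp] at this
  simp only [Polynomial.coeff_zero] at this
  rw [List.getD_eq_getElem _ _ h1] at this
  exact_mod_cast this.symm

theorem phi_zero (z : ℂ) (hz : IsPrimitiveRoot z 60) :
    z ^ 16 + z ^ 14 - z ^ 10 - z ^ 8 - z ^ 6 + z ^ 2 + 1 = 0 := by
  have h60 : z ^ 60 = 1 := hz.pow_eq_one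
  have h30 : z ^ 30 = -1 := by
    have h1 : (z ^ 30 - 1) * (z ^ 30 + 1) = 0 := by linear_combination h60
    rcases mul_eq_zero.mp h1 with h | h
    · exact absurd (sub_eq_zero.mp h) (hz.pow_ne_one_of_pos_of_lt (by norm_num) (by norm_num))
    · linear_combination h
  have h10 : z ^ 20 - z ^ 10 + 1 = 0 := by
    have h1 : (z ^ 10 + 1) * (z ^ 20 - z ^ 10 + 1) = 0 := by linear_combination h30
    rcases mul_eq_zero.mp h1 with h | h
    · exfalso
      have h2 : z ^ 20 = 1 := by linear_combination (z ^ 10 - 1) * h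
      exact hz.pow_ne_one_of_pos_of_lt (by norm_num) (by norm_num) h2
    · exact h
  have h2 : (z ^ 4 - z ^ 2 + 1) * (z ^ 16 + z ^ 14 - z ^ 10 - z ^ 8 - z ^ 6 + z ^ 2 + 1) = 0 := by
    linear_combination h10
  rcases mul_eq_zero.mp h2 with h | h
  · exfalso
    have h3 : z ^ 12 = 1 := by linear_combination (z ^ 2 + 1) * (z ^ 6 - 1) * h
    exact hz.pow_ne_one_of_pos_of_lt (by norm_num) (by norm_num) h3
  · exact h

/-- logarithmic form of the matrix -/
def E : List (List ℕ) :=
  [[0, 0, 0, 0, 0, 0, 0, 0],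
   [0, 2, 4, 16, 24, 36, 38, 40],
   [0, 55, 34, 39, 25, 30, 9, 4],
   [0, 32, 25, 7, 55, 37, 30, 2],
   [0, 37, 9, 46, 30, 7, 39, 16],
   [0, 30, 39, 9, 29, 59, 8, 38],
   [0, 25, 55, 30, 54, 29, 59, 24],
   [0, 7, 30, 37, 59, 6, 29, 36]]

def ex (i j : ℕ) : ℕ := (E.getD i []).getD j 0

/-- table of reduced powers -/
def tab : List (List ℤ) := (List.range 120).map red

def zl : List ℤ := [0, 0, 0, 0, 0, 0, 0, 0, 0, 0, 0, 0, 0, 0, 0, 0]

def addL (a b : List ℤ) : List ℤ := List.zipWith (· + ·) a b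

/-- sum of the reduced forms of `z ^ (e k)`, over the `k < 8` with `b k = true` -/
def sumL (e : ℕ → ℕ) (b : ℕ → Bool) : ℕ → List ℤ
  | 0 => zl
  | k + 1 => addL (sumL e b k) (if b k then red (e k) else zl)

theorem sumL_length (e : ℕ → ℕ) (b : ℕ → Bool) (k : ℕ) : (sumL e b k).length = 16 := by
  induction k with
  | zero => rfl
  | succ k ih =>
    simp only [sumL, addL, List.length_zipWith, ih]
    split_ifs
    · rw [red_length]; rfl
    · rfl

theorem sumL_eval (z : ℂ) (hz : IsPrimitiveRoot z 60) (e : ℕ → ℕ) (b : ℕ → Bool) (k : ℕ) :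
    evalL z (sumL e b k) = ∑ j ∈ Finset.range k, if b j then z ^ (e j) else 0 := by
  have h0 : evalL z zl = 0 := by simp [zl, evalL]
  induction k with
  | zero => simpa [sumL] using h0
  | succ k ih =>
    rw [sumL, addL, add_eval, ih, Finset.sum_range_succ]
    · split_ifs
      · rw [red_eval z (phi_zero z hz)]
      · rw [h0]
    · rw [sumL_length]
      split_ifs
      · rw [red_length]
      · rfl

theorem orth_check : ∀ p : Fin 8 × Fin 8, p.1 ≠ p.2 →
    sumL (fun k => ex p.1 k + (60 - ex p.2 k)) (fun _ => true) 8 = zl := by decide +kernel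

theorem min_check : ∀ m : Fin 256, m ≠ 0 → m ≠ 255 →
    sumL (fun k => ex 1 k + (60 - ex 0 k)) (fun k => m.val.testBit k) 8 ≠ zl := by decide +kernel

theorem ex_le : ∀ p : Fin 8 × Fin 8, ex p.1 p.2 ≤ 60 := by decide +kernel

end Pool.Agent.H81R3.BH60
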